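import Pool.Agent.H16.FK.TargetsB

/-!
# Separating marks exist
-/

set_option autoImplicit false

namespace Pool.Agent.H42.FK

open Set Pool.Agent.H75.HCI Pool.Agent.H16.FK Pool.Agent.H41.HI

variable {C : Type} {kc ku k kx : ℕ}

lemma ev_mapb {α β γ : Type} (f : Ultrafilter α) (g : α → β) (m : β → Ultrafilter γ)
    (P : γ → Prop) : (∀ᶠ s in ((f.map g).bind m : Filter γ), P s) ↔
      ∀ᶠ x in (f : Filter α), ∀ᶠ s in (m (g x) : Filter γ), P s := Iff.rfl

lemma box_prg (n s : ℕ) : Prg ∅ (box n s) := by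
  refine ⟨?_, ?_, ?_, ?_⟩
  · unfold box
    rw [List.pairwise_flatMap]
    refine ⟨fun i _ => ?_, ?_⟩
    · rw [List.pairwise_append]
      refine ⟨?_, List.pairwise_singleton _ _, ?_⟩
      · rw [List.pairwise_cons]
        refine ⟨?_, ?_⟩
        · intro a ha
          obtain ⟨m, -, rfl⟩ := List.mem_map.1 ha
          simp [ilt]
        · rw [List.pairwise_map]
          refine List.pairwise_lt_range.imp ?_
          intro a b hab
          simp [ilt, hab]
      · intro a ha b hb
        rw [List.mem_singleton] at hb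
        subst hb
        rcases List.mem_cons.1 ha with rfl | ha
        · simp [ilt]
        · obtain ⟨m, -, rfl⟩ := List.mem_map.1 ha
          simp [ilt]
    · refine List.pairwise_lt_range.imp ?_
      intro i i' hii a ha b hb
      have h1 : ∀ (j : ℕ) (c : ℕ × ℕ × ℕ),
          c ∈ ((j, 0, 0) :: ((List.range s).map fun m => (j, 1, m)) ++ [(j, 2, 0)]) → c.1 = j := by
        intro j c hc
        rcases List.mem_append.1 hc with hc | hc
        · rcases List.mem_cons.1 hc with rfl | hc
          · rfl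
          · obtain ⟨m, -, rfl⟩ := List.mem_map.1 hc
            rfl
        · rw [List.mem_singleton] at hc
          subst hc
          rfl
      left
      rw [h1 _ _ ha, h1 _ _ hb]
      exact hii
  · intro a ha
    unfold box at ha
    rw [List.mem_flatMap] at ha
    obtain ⟨i, -, ha⟩ := ha
    rcases List.mem_append.1 ha with ha | ha
    · rcases List.mem_cons.1 ha with rfl | ha
      · simp
      · obtain ⟨m, -, rfl⟩ := List.mem_map.1 ha
        simp
    · rw [List.mem_singleton] at ha
      subst ha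
      simp
  · intro a _ b hb
    exact absurd hb (notMem_empty _)
  · intro a ha
    left
    unfold box at ha ⊢
    rw [List.mem_flatMap] at ha ⊢
    obtain ⟨i, hi, ha⟩ := ha
    refine ⟨i, hi, ?_⟩
    have h1 : a.1 = i := by
      rcases List.mem_append.1 ha with ha | ha
      · rcases List.mem_cons.1 ha with rfl | ha
        · rfl
        · obtain ⟨m, -, rfl⟩ := List.mem_map.1 ha
          rfl
      · rw [List.mem_singleton] at ha
        subst ha
        rfl
    rw [h1]
    exact List.mem_append_left _ (List.mem_cons_self ..)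

lemma bnd_le {kx k : ℕ} {l : List (Idx kx k)} {p : Idx kx k} (hp : p ∈ l) :
    p.1 < bnd l ∧ ∀ q, p.2 = .inr q → q.1 < bnd l := by
  have h1 : p.1 + 1 + Sum.elim (fun _ => 0) (fun q => q.1 + 1) p.2 ≤ bnd l :=
    List.single_le_sum (fun _ _ => Nat.zero_le _) _ (List.mem_map.2 ⟨p, hp, rfl⟩)
  refine ⟨by omega, fun q hq => ?_⟩
  rw [hq] at h1
  simp only [Sum.elim_inr] at h1
  omega

lemma itp_box {l : List (Idx (kc + ku) k)} {p : Idx (kc + ku) k} (hp : p ∈ l) :
    itp p ∈ box (bnd l) (bnd l) := by
  obtain ⟨h1, h2⟩ := bnd_le hp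
  unfold box
  rw [List.mem_flatMap]
  refine ⟨p.1, List.mem_range.2 h1, ?_⟩
  obtain ⟨i, z⟩ := p
  rcases z with b | q
  · by_cases hb : b.val < kc
    · simp [itp, hb]
    · simp [itp, hb]
  · have h3 := h2 q rfl
    simp [itp, h3]

/-- the code of a pattern -/
def cod {n : ℕ} (p : Fin n → Idx kx k) :
    (Fin n → Fin kx ⊕ Fin k) × (Fin n → Fin n → Prop) × (Fin n → Fin n → Prop) :=
  (fun i => kd (p i).2, fun i j => (p i).1 < (p j).1,
    fun i j => (p i).1 = (p j).1 ∧ ∃ u v, (p i).2 = .inr u ∧ (p j).2 = .inr v ∧ u.1 < v.1)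

/-- equal codes give pattern preserving maps -/
lemma cod_pat {n : ℕ} {p p' : Fin n → Idx kx k} (hp : Function.Injective p)
    (h : cod p = cod p') : ∃ g : Idx kx k → Idx kx k, PatOn g (range p) ∧ ∀ i, g (p i) = p' i := by
  unfold cod at h
  rw [Prod.mk.injEq, Prod.mk.injEq] at h
  obtain ⟨h1, h2, h3⟩ := h
  have h1' : ∀ i, kd (p i).2 = kd (p' i).2 := fun i => congrFun h1 i
  have h2' : ∀ i j, ((p i).1 < (p j).1 ↔ (p' i).1 < (p' j).1) := fun i j =>
    iff_of_eq (congrFun (congrFun h2 i) j)
  have h3' := fun i j => iff_of_eq (congrFun (congrFun h3 i) j)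
  refine ⟨Function.extend p p' id, ?_, fun i => hp.extend_apply _ _ i⟩
  constructor
  · rintro _ ⟨i, rfl⟩
    rw [hp.extend_apply, h1']
  · rintro _ ⟨i, rfl⟩ _ ⟨j, rfl⟩
    rw [hp.extend_apply, hp.extend_apply, h2']
  · rintro _ ⟨i, rfl⟩ _ ⟨j, rfl⟩ hij u u' v v' hu hv hu' hv'
    rw [hp.extend_apply] at hu' hv'
    have hij' : (p' i).1 = (p' j).1 := by
      have a1 := h2' i j
      have a2 := h2' j i
      omega
    have h4 := h3' i j
    constructor
    · intro h
      obtain ⟨-, u1, v1, e1, e2, e3⟩ := h4.2 ⟨hij', u', v', hu', hv', h⟩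
      rw [hu] at e1
      rw [hv] at e2
      rw [Sum.inr.inj e1, Sum.inr.inj e2]
      exact e3
    · intro h
      obtain ⟨-, u1, v1, e1, e2, e3⟩ := h4.1 ⟨hij, u, v, hu, hv, h⟩
      rw [hu'] at e1
      rw [hv'] at e2
      rw [Sum.inr.inj e1, Sum.inr.inj e2]
      exact e3

/-- a common list for finitely many monotone conditions -/
lemma common {X : Type} [Finite X] (P : X → List ℕ → Prop)
    (hm : ∀ x z z', z ⊆ z' → P x z → P x z') (h : ∀ x, ∃ z, P x z) : ∃ z, ∀ x, P x z := by
  classical
  haveI := Fintype.ofFinite X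
  choose f hf using h
  refine ⟨(Finset.univ : Finset X).toList.flatMap f, fun x => hm x _ _ ?_ (hf x)⟩
  intro y hy
  rw [List.mem_flatMap]
  exact ⟨x, Finset.mem_toList.2 (Finset.mem_univ x), hy⟩

/-- the parameters of a word -/
def prm {n : ℕ} (l : List (ℕ ⊕ Fin n)) : List ℕ := l.filterMap fun q => q.elim some fun _ => none

/-- the places of a word -/
def plw {n : ℕ} (z : List ℕ) (l : List (ℕ ⊕ Fin n)) : List ℕ :=
  l.map fun q => q.elim (fun m => z.idxOf m) fun i => z.length + i.val

lemma sel_plw {n : ℕ} (z : List ℕ) (y : Fin n → ℕ) (l : List (ℕ ⊕ Fin n)) (h : prm l ⊆ z) :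
    sel (z ++ List.ofFn y) (plw z l) = l.map (Sum.elim id y) := by
  unfold sel plw
  induction l with
  | nil => rfl
  | cons q l ih =>
    have ih' := ih fun m hm => h (by
      unfold prm at hm ⊢
      rw [List.mem_filterMap] at hm ⊢
      obtain ⟨a, ha, hb⟩ := hm
      exact ⟨a, List.mem_cons_of_mem _ ha, hb⟩)
    rw [List.map_cons, List.map_cons, ← ih']
    rcases q with m | i
    · have hm : m ∈ z := h (by
        unfold prm
        rw [List.mem_filterMap]
        exact ⟨Sum.inl m, List.mem_cons_self .., rfl⟩)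
      have hlt : z.idxOf m < z.length := List.idxOf_lt_length_iff.2 hm
      have h1 : (z ++ List.ofFn y)[z.idxOf m]? = some m := by
        rw [List.getElem?_append_left hlt, List.getElem?_eq_getElem hlt, List.getElem_idxOf]
      simp only [Sum.elim_inl, List.filterMap_cons, h1, id]
    · have h1 : (z ++ List.ofFn y)[z.length + i.val]? = some (y i) := by
        rw [List.getElem?_append_right (Nat.le_add_right _ _), Nat.add_sub_cancel_left,
          List.getElem?_ofFn]
        simp
      simp only [Sum.elim_inr, List.filterMap_cons, h1]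

lemma run_mk (D : Dat kc ku k) (z : List ℕ) : ∀ (σ : List (ℕ × ℕ × ℕ)) (st : Sta kc ku k),
    run (D.mk' z) σ st = run D σ st := by
  intro σ
  induction σ with
  | nil => intro st; rfl
  | cons it τ ih =>
    intro st
    have h1 : run (D.mk' z) τ = run D τ := funext ih
    change (step D it st).bind (run (D.mk' z) τ) = (step D it st).bind (run D τ)
    rw [h1]

lemma pU_mk (D : Dat kc ku k) (z : List ℕ) {n : ℕ} (p : Fin n → Idx (kc + ku) k) :
    pU (D.mk' z) p = pU D p := by
  unfold pU
  rw [run_mk]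

theorem pf_SEPX (_hDIS : T_DIS) (hTDV : T_TDV) (hTDP : T_TDP) : T_SEPX := by
  intro C kc ku k r M D hM _
  obtain ⟨z1, hz1⟩ := common (X := (n : Fin (k + 1)) ×
      (((Fin n → Fin (kc + ku) ⊕ Fin k) × (Fin n → Fin n → Prop) × (Fin n → Fin n → Prop)) ×
        (Fin n → Fin k)))
    (fun x z => ∀ p : Fin x.1 → Idx (kc + ku) k, Function.Injective p → cod p = x.2.1 →
      typ M (pU D p) ≠ typ M (re (limU D.UU D.V) x.2.2) →
      ∃ p0 : Fin x.1 → Idx (kc + ku) k, Function.Injective p0 ∧ cod p0 = x.2.1 ∧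
        ∃ l : List (ℕ ⊕ Fin x.1), prm l ⊆ z ∧
          typ M (pU D p0) l ≠ typ M (re (limU D.UU D.V) x.2.2) l)
    (by
      intro x z z' hzz h p h1 h2 h3
      obtain ⟨p0, e1, e2, l, e3, e4⟩ := h p h1 h2 h3
      exact ⟨p0, e1, e2, l, fun m hm => hzz (e3 hm), e4⟩)
    (by
      intro x
      by_cases hb : ∃ p : Fin x.1 → Idx (kc + ku) k, Function.Injective p ∧ cod p = x.2.1 ∧
        typ M (pU D p) ≠ typ M (re (limU D.UU D.V) x.2.2)
      · obtain ⟨p0, h1, h2, h3⟩ := hb
        obtain ⟨l, hl⟩ := Function.ne_iff.1 h3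
        exact ⟨prm l, fun p _ _ _ => ⟨p0, h1, h2, l, fun m hm => hm, hl⟩⟩
      · exact ⟨[], fun p h1 h2 h3 => absurd ⟨p, h1, h2, h3⟩ hb⟩)
  refine ⟨z1, fun z hz => ?_⟩
  intro n hn p a hp ha hT
  by_contra hne
  rw [pU_mk] at hne
  obtain ⟨p0, hp0, hc, l, hl, hne'⟩ := hz1 ⟨⟨n, Nat.lt_succ_of_le hn⟩, (cod p, a)⟩ p hp rfl hne
  have hlz : prm l ⊆ z := fun m hm => hz (hl hm)
  -- the two patterns have the same type
  obtain ⟨g, hg, hgp⟩ := cod_pat hp hc.symm
  have hT0 : TD M (D.mk' z) (List.ofFn p0) = TD M (D.mk' z) (List.ofFn p) := by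
    have h1 := (hTDP C kc ku k M (D.mk' z) hM).1 g (range p) hg (List.ofFn p) (by
      intro x hx
      rw [List.mem_ofFn] at hx
      exact hx)
    rw [← h1, List.map_ofFn]
    have : g ∘ p = p0 := funext hgp
    rw [this]
  have hT1 := congrFun (hT0.trans hT) (plw z l)
  -- the side of the pattern
  have hL : TD M (D.mk' z) (List.ofFn p0) (plw z l) = typ M (pU D p0) l := by
    have h1 := hTDV C kc ku k M (D.mk' z) hM (List.ofFn p0)
      (box (bnd (List.ofFn p0)) (bnd (List.ofFn p0))) (box_prg _ _)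
      (fun q hq => itp_box hq) st0 (plw z l)
    rw [run_mk] at h1
    have h2 := Pool.Agent.H71.HCI.typ_spec hM (pU D p0) l
    have h2' : ∀ᶠ s in (run D (box (bnd (List.ofFn p0)) (bnd (List.ofFn p0))) st0 :
        Filter (Sta kc ku k)), M (l.map (Sum.elim id fun i => s.pt (p0 i))) =
          typ M (pU D p0) l := h2
    obtain ⟨s, hs1, hs2⟩ := (h1.and h2').exists
    rw [← hs1, ← hs2]
    have : (D.mk' z).z ++ (List.ofFn p0).map s.pt = z ++ List.ofFn fun i => s.pt (p0 i) := by
      rw [List.map_ofFn]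
      rfl
    rw [this, sel_plw z _ l hlz]
  -- the side of the row
  have hR : TD M (D.mk' z) (prt 0 0 (List.ofFn a)) (plw z l) =
      typ M (re (limU D.UU D.V) a) l := by
    have h1 := hTDV C kc ku k M (D.mk' z) hM (prt 0 0 (List.ofFn a)) [(0, 0, 0), (0, 1, 0)]
      (by
        refine ⟨?_, ?_, ?_, ?_⟩
        · simp [ilt]
        · simp
        · intro x _ b hb
          exact absurd hb (notMem_empty _)
        · intro x hx
          left
          simp only [List.mem_cons, List.not_mem_nil, or_false] at hx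
          rcases hx with rfl | rfl <;> simp)
      (by
        intro q hq
        unfold prt at hq
        rw [List.mem_map] at hq
        obtain ⟨y, -, rfl⟩ := hq
        simp [itp]) st0 (plw z l)
    rw [run_mk] at h1
    have h2 := Pool.Agent.H71.HCI.typ_spec hM (re (limU D.UU D.V) a) l
    have h2' : ∀ᶠ j in (D.UU : Filter ℕ), ∀ᶠ y in (D.V j : Filter (Fin k → ℕ)),
        M (l.map (Sum.elim id (y ∘ a))) = typ M (re (limU D.UU D.V) a) l := h2
    have h1' : ∀ᶠ j in (D.UU : Filter ℕ), ∀ᶠ y in (D.V j : Filter (Fin k → ℕ)),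
        M (l.map (Sum.elim id (y ∘ a))) = TD M (D.mk' z) (prt 0 0 (List.ofFn a)) (plw z l) := by
      have e : ∀ s : Sta kc ku k, run D [(0, 0, 0), (0, 1, 0)] s = (D.UU.map fun j =>
          (⟨Function.update s.j 0 j, fun p =>
            if p.1 = 0 then
              Sum.elim (fun b => Fin.addCases (fun b' => D.c j b') (fun _ => s.pt p) b)
                (fun _ => s.pt p) p.2
            else s.pt p⟩ : Sta kc ku k)).bind (run D [(0, 1, 0)]) := fun s => rfl
      have e2 : ∀ s : Sta kc ku k, run D [(0, 1, 0)] s = ((D.V (s.j 0)).map fun y =>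
            (⟨s.j, fun p =>
              if p.1 = 0 then
                Sum.elim (fun _ => s.pt p) (fun q => if q.1 = 0 then y q.2 else s.pt p) p.2
              else s.pt p⟩ : Sta kc ku k)).bind (run D []) := fun s => rfl
      rw [e, ev_mapb] at h1
      refine h1.mono fun j hj => ?_
      rw [e2, ev_mapb] at hj
      have hj' : ∀ᶠ y in (D.V (Function.update (st0 : Sta kc ku k).j 0 j 0) :
          Filter (Fin k → ℕ)), M (l.map (Sum.elim id (y ∘ a))) =
            TD M (D.mk' z) (prt 0 0 (List.ofFn a)) (plw z l) := by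
        refine hj.mono fun y hy => ?_
        have hy1 : M (sel ((D.mk' z).z ++ (prt 0 0 (List.ofFn a)).map (fun p : Idx (kc + ku) k =>
            if p.1 = 0 then
              Sum.elim (fun _ => (if p.1 = 0 then
                Sum.elim (fun b => Fin.addCases (fun b' => D.c j b')
                  (fun _ => (st0 : Sta kc ku k).pt p) b)
                  (fun _ => (st0 : Sta kc ku k).pt p) p.2
                else (st0 : Sta kc ku k).pt p)) (fun q => if q.1 = 0 then y q.2 else
                (if p.1 = 0 then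
                Sum.elim (fun b => Fin.addCases (fun b' => D.c j b')
                  (fun _ => (st0 : Sta kc ku k).pt p) b)
                  (fun _ => (st0 : Sta kc ku k).pt p) p.2
                else (st0 : Sta kc ku k).pt p)) p.2
            else (if p.1 = 0 then
                Sum.elim (fun b => Fin.addCases (fun b' => D.c j b')
                  (fun _ => (st0 : Sta kc ku k).pt p) b)
                  (fun _ => (st0 : Sta kc ku k).pt p) p.2
                else (st0 : Sta kc ku k).pt p))) (plw z l)) =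
            TD M (D.mk' z) (prt 0 0 (List.ofFn a)) (plw z l) := hy
        rw [← hy1]
        unfold prt
        rw [List.map_map, List.map_ofFn]
        have e3 : ∀ y' : Fin n → ℕ, sel ((D.mk' z).z ++ List.ofFn y') (plw z l) =
            l.map (Sum.elim id y') := fun y' => sel_plw z y' l hlz
        rw [← e3]
        rfl
      rwa [Function.update_self] at hj'
    obtain ⟨j, hj1, hj2⟩ := (h1'.and h2').exists
    obtain ⟨y, hy1, hy2⟩ := (hj1.and hj2).exists
    rw [← hy1, ← hy2]
  exact hne' (hL.symm.trans (hT1.trans hR))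

end Pool.Agent.H42.FK
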